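import Mathlib
import Pool.Agent.Q15.AccMonoid

namespace Pool.Agent.Results.MP_c4d24c_al.OneSidedNotTwoSided

/-- The principal left ideal `Hx`. -/
def leftIdeal {H : Type*} [Monoid H] (x : H) : Set H := {y | ∃ h, y = h * x}

/-- The principal right ideal `xH`. -/
def rightIdeal {H : Type*} [Monoid H] (x : H) : Set H := {y | ∃ h, y = x * h}

/-- The principal two-sided ideal `HxH`. -/
def twoSidedIdeal {H : Type*} [Monoid H] (x : H) : Set H := {y | ∃ h k, y = h * x * k}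

/-- Ascending chain condition for the ideals `I x`. -/
def ACC {H : Type*} (I : H → Set H) : Prop :=
  ∀ x : ℕ → H, (∀ n, I (x n) ⊆ I (x (n + 1))) → ∃ N, ∀ n, N ≤ n → I (x n) = I (x N)

open Q15Acc in
theorem acc_of_rank {H : Type*} (I : H → Set H) (r : H → ℕ ×ₗ ℕ)
    (hI : ∀ y z : H, I y ⊆ I z → r z ≤ r y ∧ (r z = r y → I z ⊆ I y)) : ACC I := by
  intro x hx
  have hmono : ∀ n k, I (x n) ⊆ I (x (n + k)) := by
    intro n k
    induction k with
    | zero => exact subset_rfl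
    | succ k ih => exact ih.trans (hx _)
  obtain ⟨N, hN⟩ : ∃ N, ∀ n, ¬ r (x n) < r (x N) := by
    obtain ⟨a, ⟨N, rfl⟩, h⟩ := (wellFounded_lt (α := ℕ ×ₗ ℕ)).has_min
      (Set.range fun n => r (x n)) ⟨_, 0, rfl⟩
    exact ⟨N, fun n => h _ ⟨n, rfl⟩⟩
  refine ⟨N, fun n hn => ?_⟩
  obtain ⟨k, rfl⟩ := Nat.exists_eq_add_of_le hn
  have h1 := hmono N k
  obtain ⟨h2, h3⟩ := hI _ _ h1
  have h4 : r (x (N + k)) = r (x N) := le_antisymm h2 (not_lt.mp (hN (N + k)))
  exact Set.Subset.antisymm (h3 h4) h1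

open Q15Acc in
/-- There is a monoid satisfying the ascending chain conditions on principal left ideals and on
principal right ideals, with an infinite strictly ascending chain of principal two-sided
ideals. -/
theorem result : ∃ (H : Type) (_ : Monoid H),
    ACC (leftIdeal (H := H)) ∧ ACC (rightIdeal (H := H)) ∧
    ¬ ACC (twoSidedIdeal (H := H)) ∧
    ∃ x : ℕ → H, ∀ n, twoSidedIdeal (x n) ⊂ twoSidedIdeal (x (n + 1)) := by
  have hchain : ∀ n, twoSidedIdeal (xs n) ⊂ twoSidedIdeal (xs (n + 1)) := by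
    intro n
    refine ⟨?_, ?_⟩
    · rintro y ⟨h, k, rfl⟩
      refine ⟨h * H.word [.inl (.red n)], H.word [.inr (.red n)] * k, ?_⟩
      rw [xs_eq n]
      simp only [mul_assoc]
    · intro h
      obtain ⟨a, b, e⟩ := h (show xs (n + 1) ∈ twoSidedIdeal (xs (n + 1)) from
        ⟨1, 1, by rw [one_mul, mul_one]⟩)
      exact xs_not n a b e
  refine ⟨H, inferInstance, ?_, ?_, ?_, xs, hchain⟩
  · apply acc_of_rank _ RL
    intro y z h
    obtain ⟨a, ha⟩ := h (show y ∈ leftIdeal y from ⟨1, (one_mul y).symm⟩)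
    obtain ⟨h1, h2⟩ := RL_mul a z
    rw [ha]
    refine ⟨h1, fun e => ?_⟩
    obtain ⟨k, hk⟩ := h2 e
    rintro w ⟨b, rfl⟩
    exact ⟨b * k, by rw [mul_assoc, ← hk]⟩
  · apply acc_of_rank _ RR
    intro y z h
    obtain ⟨a, ha⟩ := h (show y ∈ rightIdeal y from ⟨1, (mul_one y).symm⟩)
    obtain ⟨h1, h2⟩ := RR_mul z a
    rw [ha]
    refine ⟨h1, fun e => ?_⟩
    obtain ⟨k, hk⟩ := h2 e
    rintro w ⟨b, rfl⟩
    exact ⟨k * b, by rw [← mul_assoc, ← hk]⟩
  · intro h
    obtain ⟨N, hN⟩ := h xs fun n => (hchain n).subset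
    exact (hchain N).ne (hN (N + 1) (Nat.le_succ N)).symm

end Pool.Agent.Results.MP_c4d24c_al.OneSidedNotTwoSided
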